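import Pool.Agent.DL.Gam7

/-!
# Turán's (3,4)-problem when few links are not joins

Let `p` be the Turán density of `K_4^3`, so that `p ≥ 5/9`, and `p = 5/9` is Turán's conjecture. In
Turán's construction every link is a join of two graphs. It is proved here that a `K_4^3`-free
3-graph in which all links but `u` are joins of two nonempty graphs has at most
`5/54 n³ + 13 (p - 5/9) u³ + O(n² √n)` edges, and that for all `δ > 0` a `K_4^3`-free 3-graph in
which all but `γ n` links are nearly joins of graphs with at least `δ n` vertices has at most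
`(5/9 + 77 (p - 5/9) γ³ + o(1)) C(n,3)` edges. So the excess over the conjectured density is at most
the possible gap `p - 5/9` times `77 γ³`. If Turán's conjecture is false, then in each
asymptotically extremal `K_4^3`-free 3-graph more than 23.5 percent of the links are not near joins.

Proof. Each regular vertex `x` has a cut, and all triples of the complement of `H` at `x` are on one
side. Let `S` be a set of vertices with at most `4/17 |S|` exceptional ones. If there is a cyclic
triple of vertices for the relation `R` (`y` separates a vertex from `x` which `x` does not separate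
from `y`), then the cuts are those of Turán's construction for three classes, and three suitable
regular vertices of the three classes have total degree at least `2/3 |S|² - O(|S|)` in the
complement of `H` in `S`; otherwise a maximal regular vertex is in all triples of the complement
with two vertices on one side which are not both exceptional. In both cases there is a vertex of
degree at least `2/9 |S|² - O(|S|)`. These vertices are removed one by one. The second part follows
by random samples of constant size.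
-/

set_option autoImplicit false
open Finset Filter
open scoped Classical

namespace Pool.Agent.Results.MP_f1799f_co.FewExceptionalLinks

variable {n : ℕ}

/-- The 3-graph `H` has no four vertices spanning all four triples. -/
def K43Free (H : Finset (Finset (Fin n))) : Prop :=
  ∀ S : Finset (Fin n), S.card = 4 → ∃ e ⊆ S, e.card = 3 ∧ e ∉ H

/-- The maximum number of edges of a `K_4^3`-free 3-graph on `n` vertices. -/
noncomputable def ex (n : ℕ) : ℕ :=
  sSup {m : ℕ | ∃ H : Finset (Finset (Fin n)), (∀ e ∈ H, e.card = 3) ∧ K43Free H ∧ H.card = m}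

/-- The vertices other than `v` are divided into the two classes `A` and `B`. -/
def Divides (v : Fin n) (A B : Finset (Fin n)) : Prop := Disjoint A B ∧ A ∪ B = univ.erase v

/-- The pairs `(a, b)` with `a ∈ A` and `b ∈ B` which are not edges of the link of `v`. -/
def missing (H : Finset (Finset (Fin n))) (v : Fin n) (A B : Finset (Fin n)) :
    Finset (Fin n × Fin n) :=
  (A ×ˢ B).filter fun p => ({v, p.1, p.2} : Finset (Fin n)) ∉ H

/-- The link of `v` in `H` is a join of two graphs with at least one vertex each. -/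
def JoinLink (H : Finset (Finset (Fin n))) (v : Fin n) : Prop :=
  ∃ A B : Finset (Fin n), Divides v A B ∧ A.Nonempty ∧ B.Nonempty ∧ missing H v A B = ∅

/-- The link of `v` in `H` is, up to at most `ε n²` missing pairs, a join of two graphs with at
least `δ n` vertices each. -/
def NearJoinLink (H : Finset (Finset (Fin n))) (δ ε : ℝ) (v : Fin n) : Prop :=
  ∃ A B : Finset (Fin n), Divides v A B ∧ δ * n ≤ A.card ∧ δ * n ≤ B.card ∧
    ((missing H v A B).card : ℝ) ≤ ε * (n : ℝ) ^ 2

open Pool.Agent.DL Pool.Agent.R810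

/-- the complement -/
theorem compl {H : Finset (Finset (Fin n))} (h3 : ∀ e ∈ H, e.card = 3) (hK : K43Free H) :
    (∀ e ∈ powersetCard 3 univ \ H, e.card = 3) ∧ TC.Covers (powersetCard 3 univ \ H) ∧
      H.card + (powersetCard 3 univ \ H).card = n.choose 3 := by
  refine ⟨fun e he => (mem_powersetCard.1 (mem_sdiff.1 he).1).2, ?_, ?_⟩
  · intro S hS
    obtain ⟨e, he, h5, h6⟩ := hK S hS
    exact ⟨e, mem_sdiff.2 ⟨mem_powersetCard.2 ⟨subset_univ _, h5⟩, h6⟩, he⟩
  · have hsub : H ⊆ powersetCard 3 univ := fun e he =>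
      mem_powersetCard.2 ⟨subset_univ _, h3 e he⟩
    have := card_sdiff_add_card_eq_card hsub
    rw [card_powersetCard, card_univ, Fintype.card_fin] at this
    omega

theorem Divides.mem {v : Fin n} {A B : Finset (Fin n)} (h : Divides v A B) {x : Fin n}
    (hx : x ≠ v) (hA : x ∉ A) : x ∈ B := by
  have : x ∈ A ∪ B := by
    rw [h.2]
    exact mem_erase.2 ⟨hx, mem_univ _⟩
  rcases mem_union.1 this with h5 | h5
  · exact absurd h5 hA
  · exact h5

/-- the chosen class at a vertex -/
noncomputable def cls (H : Finset (Finset (Fin n))) (v : Fin n) : Finset (Fin n) :=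
  if h : JoinLink H v then h.choose else ∅

theorem cls_spec {H : Finset (Finset (Fin n))} {v : Fin n} (h : JoinLink H v) :
    ∃ B, Divides v (cls H v) B ∧ (cls H v).Nonempty ∧ B.Nonempty ∧
      missing H v (cls H v) B = ∅ := by
  unfold cls
  rw [dif_pos h]
  exact h.choose_spec

theorem part_one {p : ℝ} (hp : Dens p) {H : Finset (Finset (Fin n))}
    (h3 : ∀ e ∈ H, e.card = 3) (hK : K43Free H) :
    (H.card : ℝ) ≤ 5 / 54 * (n : ℝ) ^ 3 + 13 * (p - 5 / 9) *
      ({v | ¬ JoinLink H v}.ncard : ℝ) ^ 3 +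
        (3 + 450 * (p - 5 / 9)) * ((n : ℝ) ^ 2 * Real.sqrt n) := by
  obtain ⟨t3, tc, hcard⟩ := compl h3 hK
  have hp5 := hp.ge
  set T := powersetCard 3 univ \ H with hT
  set c : Fin n → Fin n → Prop := fun v y => y ∈ cls H v with hc
  have hsub : T ⊆ locT c := by
    intro e he
    obtain ⟨x, y, z, d1, d2, d3, rfl⟩ := card_eq_three.1 (t3 e he)
    rw [mem_locT' d1 d2 d3]
    have key : ∀ x y z : Fin n, x ≠ y → x ≠ z → y ≠ z →
        ({x, y, z} : Finset (Fin n)) ∈ T → c x y → c x z := by
      intro x y z d1 d2 d3 he hy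
      by_contra hz
      have hJ : JoinLink H x := by
        by_contra hJ
        simp only [hc] at hy
        unfold cls at hy
        rw [dif_neg hJ] at hy
        exact notMem_empty _ hy
      obtain ⟨B, hD, -, -, hm⟩ := cls_spec hJ
      have hzB : z ∈ B := hD.mem d2.symm hz
      have h5 : (y, z) ∈ missing H x (cls H x) B := by
        unfold missing
        rw [mem_filter, mem_product]
        exact ⟨⟨hy, hzB⟩, (mem_sdiff.1 he).2⟩
      rw [hm] at h5
      exact notMem_empty _ h5
    have key' : ∀ x y z : Fin n, x ≠ y → x ≠ z → y ≠ z →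
        ({x, y, z} : Finset (Fin n)) ∈ T → c x y = c x z := by
      intro x y z d1 d2 d3 he
      exact propext ⟨key x y z d1 d2 d3 he, key x z y d2 d1 d3.symm (by
        rw [pair_comm z y]
        exact he)⟩
    exact ⟨key' x y z d1 d2 d3 he, key' y x z d1.symm d3 d2 (by
      rw [insert_comm y x]
      exact he), key' z x y d2.symm d3.symm d1 (by
      rw [LJ.rot_set z x y]
      exact he)⟩
  have h5 := exactA hp t3 tc hsub
  have hu : (univ.filter fun x => ¬ TwoD c x).card ≤ {v | ¬ JoinLink H v}.ncard := by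
    rw [Set.ncard_eq_toFinset_card']
    refine card_le_card ?_
    intro v hv
    rw [mem_filter] at hv
    rw [Set.mem_toFinset]
    intro hJ
    apply hv.2
    obtain ⟨B, hD, ⟨a, ha⟩, ⟨b, hb⟩, -⟩ := cls_spec hJ
    have hav : a ∈ univ.erase v := by
      rw [← hD.2]
      exact mem_union_left _ ha
    have hbv : b ∈ univ.erase v := by
      rw [← hD.2]
      exact mem_union_right _ hb
    refine ⟨a, b, ne_of_mem_erase hav, ne_of_mem_erase hbv, ?_⟩
    intro e
    have : c v b := by
      rw [← e]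
      exact ha
    exact (disjoint_left.1 hD.1) this hb
  have hu' : (((univ.filter fun x => ¬ TwoD c x).card : ℕ) : ℝ) ≤
      ({v | ¬ JoinLink H v}.ncard : ℝ) := by exact_mod_cast hu
  have hu3 := pow_le_pow_left₀ (Nat.cast_nonneg _) hu' 3
  have h6 := choose_three_le n
  have h7 : (H.card : ℝ) + (T.card : ℝ) = (n.choose 3 : ℝ) := by exact_mod_cast hcard
  have h8 : (17 / 4) ^ 3 * (p - 5 / 9) / 6 *
      (((univ.filter fun x => ¬ TwoD c x).card : ℕ) : ℝ) ^ 3 ≤ 13 * (p - 5 / 9) *
        ({v | ¬ JoinLink H v}.ncard : ℝ) ^ 3 := by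
    refine mul_le_mul ?_ hu3 (by positivity) (mul_nonneg (by norm_num) (by linarith))
    nlinarith
  linarith

theorem crs_bound {H T : Finset (Finset (Fin n))} {Q : Fin n → Finset (Fin n)} {x : Fin n}
    {B' : Finset (Fin n)} {ε : ℝ} (hT : ∀ e ∈ T, e.card = 3 ∧ e ∉ H) (hD : Divides x (Q x) B')
    (hm : ((missing H x (Q x) B').card : ℝ) ≤ ε * (n : ℝ) ^ 2) :
    ({p : Fin n × Fin n | p.1 ∈ Q x ∧ p.2 ∉ Q x ∧
      ({x, p.1, p.2} : Finset (Fin n)) ∈ T}.ncard : ℝ) ≤
        ε * (n : ℝ) ^ 2 := by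
  refine le_trans ?_ hm
  have h1 : {p : Fin n × Fin n | p.1 ∈ Q x ∧ p.2 ∉ Q x ∧
      ({x, p.1, p.2} : Finset (Fin n)) ∈ T} ⊆
        ((missing H x (Q x) B' : Finset (Fin n × Fin n)) : Set (Fin n × Fin n)) := by
    rintro ⟨y, z⟩ ⟨hy, hz, he⟩
    simp only at hy hz he
    replace he := hT _ he
    have hzx : z ≠ x := by
      rintro rfl
      have h5 := he.1
      have h6 : ({z, y, z} : Finset (Fin n)) = {z, y} := by
        ext t
        simp only [mem_insert, mem_singleton]
        tauto
      rw [h6] at h5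
      have := card_le_two (a := z) (b := y)
      omega
    rw [mem_coe]
    unfold missing
    rw [mem_filter, mem_product]
    exact ⟨⟨hy, hD.mem hzx hz⟩, he.2⟩
  have h2 := Set.ncard_le_ncard h1 (Set.toFinite _)
  rw [Set.ncard_coe_finset] at h2
  exact_mod_cast h2

theorem NearJoinLink.mono {H : Finset (Finset (Fin n))} {δ δ' ε ε' : ℝ} {v : Fin n}
    (h : NearJoinLink H δ ε v) (hδ : δ' ≤ δ) (hε : ε ≤ ε') : NearJoinLink H δ' ε' v := by
  obtain ⟨A, B, h1, h2, h3, h4⟩ := h
  have hn : (0 : ℝ) ≤ n := Nat.cast_nonneg _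
  exact ⟨A, B, h1, (mul_le_mul_of_nonneg_right hδ hn).trans h2,
    (mul_le_mul_of_nonneg_right hδ hn).trans h3,
    h4.trans (mul_le_mul_of_nonneg_right hε (by positivity))⟩

theorem part_two {p : ℝ} (hp : Dens p) {γ δ η : ℝ} (hγ : 0 ≤ γ) (hδ : 0 < δ) (hη : 0 < η) :
    ∃ ε : ℝ, 0 < ε ∧ ∃ n0 : ℕ, ∀ n, n0 ≤ n → ∀ H : Finset (Finset (Fin n)),
      (∀ e ∈ H, e.card = 3) → K43Free H →
      ({v | ¬ NearJoinLink H δ ε v}.ncard : ℝ) ≤ γ * n →
      (H.card : ℝ) ≤ (5 / 9 + 77 * (p - 5 / 9) * γ ^ 3 + η) * (n.choose 3 : ℝ) := by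
  have hp5 := hp.ge
  have hδ' : 0 < min δ (1 / 2) := lt_min hδ (by norm_num)
  have hδ1 : min δ (1 / 2) < 1 := lt_of_le_of_lt (min_le_right _ _) (by norm_num)
  have hη' : 0 < min η (1 / 2) := lt_min hη (by norm_num)
  obtain ⟨ε, hε, n0, hmain⟩ := robustX hp hp5 hγ hδ' hδ1 hη' (min_le_right _ _)
  refine ⟨ε, hε, n0, fun n hn H h3 hK hB => ?_⟩
  obtain ⟨t3, tc, hcard⟩ := compl h3 hK
  have hn0 : (0 : ℝ) ≤ n := Nat.cast_nonneg _
  set B : Finset (Fin n) := univ.filter fun x => ¬ NearJoinLink H δ ε x with hBdef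
  have hBc : (B.card : ℝ) ≤ γ * n := by
    refine le_trans (le_of_eq ?_) hB
    congr 1
    rw [Set.ncard_eq_toFinset_card']
    congr 1
    ext q
    simp [hBdef]
  have hcut : ∀ x, x ∉ B → NearJoinLink H (min δ (1 / 2)) ε x := by
    intro x hx
    rw [hBdef, mem_filter] at hx
    have : NearJoinLink H δ ε x := by
      by_contra h
      exact hx ⟨mem_univ _, h⟩
    exact this.mono (min_le_left _ _) le_rfl
  set Q : Fin n → Finset (Fin n) := fun x => if h : x ∉ B then (hcut x h).choose else ∅ with hQ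
  have hspec : ∀ x, x ∉ B → ∃ B', Divides x (Q x) B' ∧ min δ (1 / 2) * n ≤ (Q x).card ∧
      min δ (1 / 2) * n ≤ B'.card ∧ ((missing H x (Q x) B').card : ℝ) ≤ ε * (n : ℝ) ^ 2 := by
    intro x hx
    have : Q x = (hcut x hx).choose := by
      simp only [hQ]
      rw [dif_pos hx]
    rw [this]
    exact (hcut x hx).choose_spec
  have h5 := hmain n hn (powersetCard 3 univ \ H) t3 tc Q B hBc (by
    intro x hx
    obtain ⟨B', hD, -, h2, -⟩ := hspec x hx
    have h4 : (Q x).card + B'.card = n - 1 := by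
      rw [← card_union_of_disjoint hD.1, hD.2, card_erase_of_mem (mem_univ _), card_univ,
        Fintype.card_fin]
    have h5 : (Q x).card + B'.card ≤ n := by omega
    have h6 : ((Q x).card : ℝ) + (B'.card : ℝ) ≤ n := by exact_mod_cast h5
    linarith) (by
    intro x hx
    obtain ⟨B', -, h2, -, -⟩ := hspec x hx
    have h4 : ((Q x).card : ℝ) + (((Q x)ᶜ).card : ℝ) = n := by
      have := card_add_card_compl (Q x)
      rw [Fintype.card_fin] at this
      exact_mod_cast this
    linarith) (crs_le hε.le (by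
    intro x hx
    obtain ⟨B', hD, -, -, h2⟩ := hspec x hx
    exact crs_bound (fun e he => ⟨t3 e he, (mem_sdiff.1 he).2⟩) hD h2))
  have h6 := choose_three_le n
  have h7 : (H.card : ℝ) + ((powersetCard 3 univ \ H).card : ℝ) = (n.choose 3 : ℝ) := by
    exact_mod_cast hcard
  have hm := min_le_left η (1 / 2 : ℝ)
  have hC0 : (0 : ℝ) ≤ (n.choose 3 : ℝ) := Nat.cast_nonneg _
  have hT0 : (0 : ℝ) ≤ ((powersetCard 3 univ \ H).card : ℝ) := Nat.cast_nonneg _
  have hg3 : 0 ≤ γ ^ 3 := by positivity
  set F : ℝ := 4 / 9 - (17 / 4) ^ 3 * (p - 5 / 9) * γ ^ 3 - min η (1 / 2) with hF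
  have hF2 : 1 - F ≤ 5 / 9 + 77 * (p - 5 / 9) * γ ^ 3 + η := by
    have h8 : (17 / 4) ^ 3 * (p - 5 / 9) * γ ^ 3 ≤ 77 * (p - 5 / 9) * γ ^ 3 := by
      refine mul_le_mul_of_nonneg_right ?_ hg3
      nlinarith
    rw [hF]
    linarith
  have h9 : (H.card : ℝ) ≤ (1 - F) * (n.choose 3 : ℝ) := by
    rcases le_or_gt 0 F with h10 | h10
    · have h11 : F * (6 * (n.choose 3 : ℝ)) ≤ F * (n : ℝ) ^ 3 := mul_le_mul_of_nonneg_left h6 h10
      linarith
    · have h11 : 0 ≤ -F * (n.choose 3 : ℝ) := mul_nonneg (by linarith) hC0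
      linarith
  exact h9.trans (mul_le_mul_of_nonneg_right hF2 hC0)

/-- **Few exceptional links.** Let `p` be the Turán density of `K_4^3`. The first part is about
`K_4^3`-free 3-graphs whose links are joins of two nonempty graphs, with any number of exceptions.
The second part is about `K_4^3`-free 3-graphs in which at most `γ n` links are not nearly joins of
two graphs with at least `δ n` vertices. The third part says that there are at least `0.235 n` such
links in all asymptotically extremal `K_4^3`-free 3-graphs if Turán's conjecture `p = 5/9` is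
false. -/
theorem result (p : ℝ)
    (hp : Tendsto (fun n : ℕ => (ex n : ℝ) / (n.choose 3 : ℝ)) atTop (nhds p)) :
    5 / 9 ≤ p ∧
    (∃ C : ℝ, ∀ (n : ℕ) (H : Finset (Finset (Fin n))), (∀ e ∈ H, e.card = 3) → K43Free H →
      (H.card : ℝ) ≤ 5 / 54 * (n : ℝ) ^ 3 + 13 * (p - 5 / 9) *
        ({v | ¬ JoinLink H v}.ncard : ℝ) ^ 3 + C * ((n : ℝ) ^ 2 * Real.sqrt n)) ∧
    (∀ γ δ η : ℝ, 0 ≤ γ → 0 < δ → 0 < η → ∃ ε : ℝ, 0 < ε ∧ ∃ n0 : ℕ, ∀ n, n0 ≤ n →
      ∀ H : Finset (Finset (Fin n)), (∀ e ∈ H, e.card = 3) → K43Free H →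
        ({v | ¬ NearJoinLink H δ ε v}.ncard : ℝ) ≤ γ * n →
        (H.card : ℝ) ≤ (5 / 9 + 77 * (p - 5 / 9) * γ ^ 3 + η) * (n.choose 3 : ℝ)) ∧
    (5 / 9 < p → ∀ δ : ℝ, 0 < δ → ∃ ε : ℝ, 0 < ε ∧ ∃ n0 : ℕ, ∀ n, n0 ≤ n →
      ∀ H : Finset (Finset (Fin n)), (∀ e ∈ H, e.card = 3) → K43Free H →
        (p - ε) * (n.choose 3 : ℝ) ≤ (H.card : ℝ) →
        0.235 * (n : ℝ) < ({v | ¬ NearJoinLink H δ ε v}.ncard : ℝ)) := by
  have hd : Dens p := dens_of_lim hp
  refine ⟨hd.ge, ⟨_, fun n H h3 hK => part_one hd h3 hK⟩,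
    fun γ δ η hγ hδ hη => part_two hd hγ hδ hη, ?_⟩
  intro hp5 δ hδ
  obtain ⟨ε, hε, n0, hmain⟩ := part_two hd (γ := 0.235) (δ := δ) (η := (p - 5 / 9) / 10000)
    (by norm_num) hδ (by linarith)
  have hε' : 0 < min ε ((p - 5 / 9) / 10000) := lt_min hε (by linarith)
  refine ⟨min ε ((p - 5 / 9) / 10000), hε', max n0 3, fun n hn H h3 hK hH => ?_⟩
  by_contra hcon
  push Not at hcon
  have hsub : {v | ¬ NearJoinLink H δ ε v} ⊆
      {v | ¬ NearJoinLink H δ (min ε ((p - 5 / 9) / 10000)) v} := fun v hv h =>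
    hv (h.mono le_rfl (min_le_left _ _))
  have h5 := Set.ncard_le_ncard hsub (Set.toFinite _)
  have h6 : (({v | ¬ NearJoinLink H δ ε v}.ncard : ℕ) : ℝ) ≤
      (({v | ¬ NearJoinLink H δ (min ε ((p - 5 / 9) / 10000)) v}.ncard : ℕ) : ℝ) := by
    exact_mod_cast h5
  have h7 := hmain n ((le_max_left _ _).trans hn) H h3 hK (h6.trans hcon)
  have hC : 0 < n.choose 3 := Nat.choose_pos ((le_max_right _ _).trans hn)
  have hC' : (0 : ℝ) < (n.choose 3 : ℝ) := by exact_mod_cast hC
  have h8 := hH.trans h7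
  have h9 := le_of_mul_le_mul_right h8 hC'
  have h10 := min_le_right ε ((p - 5 / 9) / 10000)
  norm_num at h9
  nlinarith

end Pool.Agent.Results.MP_f1799f_co.FewExceptionalLinks
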