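import Pool.Agent.V641.TS.Clo
import Pool.Agent.V641.TS.FdF2

/-!
# Iterated substitution

Every `K_4^3`-free 3-graph on `n` vertices which is built by iterated substitution, each step being
either an arbitrary pattern with at most five classes or a pattern of the Fon-der-Flaass type with
any number of classes, has at most `5 n ^ 3 / 54` edges.
-/

set_option autoImplicit false

namespace Pool.Agent.Results.MP_f1799f_co.IteratedSubstitution

open Finset

variable {V : Type} [DecidableEq V]

/-- No four vertices span all four triples. -/
def K43Free (H : Finset (Finset V)) : Prop :=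
  ∀ p q r s : V, p ≠ q → p ≠ r → p ≠ s → q ≠ r → q ≠ s → r ≠ s →
    ¬ (({p, q, r} : Finset V) ∈ H ∧ ({p, q, s} : Finset V) ∈ H ∧ ({p, r, s} : Finset V) ∈ H ∧
      ({q, r, s} : Finset V) ∈ H)

/-- The colouring `c` divides `W` into classes such that, for a triple of `W` which meets at least
two classes, it depends only on the classes of its three vertices whether it is an edge of `H`. -/
def Homogeneous {k : ℕ} (H : Finset (Finset V)) (W : Finset V) (c : V → Fin k) : Prop :=
  ∀ u ∈ W, ∀ v ∈ W, ∀ w ∈ W, ∀ u' ∈ W, ∀ v' ∈ W, ∀ w' ∈ W,
    u ≠ v → u ≠ w → v ≠ w → u' ≠ v' → u' ≠ w' → v' ≠ w' →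
    c u = c u' → c v = c v' → c w = c w' → ¬ (c u = c v ∧ c v = c w) →
    (({u, v, w} : Finset V) ∈ H ↔ ({u', v', w'} : Finset V) ∈ H)

/-- `R` is an oriented graph: no loops and at most one arc between two vertices. -/
def Oriented {m : ℕ} (R : Fin m → Fin m → Prop) : Prop := ∀ a b, R a b → ¬ R b a

/-- `R` has no induced oriented 4-cycle. -/
def NoInducedC4 {m : ℕ} (R : Fin m → Fin m → Prop) : Prop :=
  ¬ ∃ a b c d, R a b ∧ R b c ∧ R c d ∧ R d a ∧ ¬ R a c ∧ ¬ R c a ∧ ¬ R b d ∧ ¬ R d b

/-- One of the three is joined by an arc to neither of the two others, or sends arcs to both: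
the triples which are left out in the Fon-der-Flaass construction. -/
def LeftOut {m : ℕ} (R : Fin m → Fin m → Prop) (a b c : Fin m) : Prop :=
  (¬ (R a b ∨ R b a) ∧ ¬ (R a c ∨ R c a)) ∨ (¬ (R a b ∨ R b a) ∧ ¬ (R b c ∨ R c b)) ∨
    (¬ (R a c ∨ R c a) ∧ ¬ (R b c ∨ R c b)) ∨ (R a b ∧ R a c) ∨ (R b a ∧ R b c) ∨ (R c a ∧ R c b)

/-- `H` is on `W` of the Fon-der-Flaass type for the oriented graph `R` on the classes: an edge
which meets at least two classes is not left out by `R`, and an edge inside one class lies in a class
which sends no arc. -/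
def FdFType {m : ℕ} (H : Finset (Finset V)) (W : Finset V) (c : V → Fin m)
    (R : Fin m → Fin m → Prop) : Prop :=
  ∀ u ∈ W, ∀ v ∈ W, ∀ w ∈ W, ({u, v, w} : Finset V) ∈ H →
    (¬ (c u = c v ∧ c v = c w) → ¬ LeftOut R (c u) (c v) (c w)) ∧
    (c u = c v ∧ c v = c w → ∀ b, ¬ R (c u) b)

/-- The vertex sets on which `H` is built by iterated substitution: the sets with at most one vertex;
a set divided into at most five homogeneous classes each of which is built in this way; and a set
divided into any number of classes, with an oriented graph `R` on the classes without induced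
oriented 4-cycle for which `H` is of the Fon-der-Flaass type, each class being built in this way. -/
inductive Built (H : Finset (Finset V)) : Finset V → Prop
  | point (W : Finset V) : W.card ≤ 1 → Built H W
  | five (W : Finset V) (c : V → Fin 5) : Homogeneous H W c →
      (∀ a, Built H (W.filter fun v => c v = a)) → Built H W
  | fdf (W : Finset V) (m : ℕ) (c : V → Fin m) (R : Fin m → Fin m → Prop) : Oriented R →
      NoInducedC4 R → FdFType H W c R → (∀ a, Built H (W.filter fun v => c v = a)) → Built H W

theorem bound {H : Finset (Finset V)} (hH : ∀ e ∈ H, e.card = 3) (hK : K43Free H)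
    {W : Finset V} (hW : Built H W) : 54 * (V641.TS.inside H W).card ≤ 5 * W.card ^ 3 := by
  induction hW with
  | point W h =>
    have e : V641.TS.inside H W = ∅ := by
      rw [Finset.eq_empty_iff_forall_notMem]
      intro e he
      obtain ⟨h1, h2⟩ := mem_filter.1 he
      have h3 := card_le_card h2
      rw [hH e h1] at h3
      omega
    rw [e]
    simp
  | five W c hc _ ih => exact V641.TS.closure5 hH hK W c hc ih
  | fdf W m c R hO hC hF _ ih =>
    refine V641.TS.closureF hH W c R hO ?_ ?_ ?_ ih
    · intro a b c d h1 h2 h3 h4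
      by_contra hne
      push Not at hne
      exact hC ⟨a, b, c, d, h1, h2, h3, h4, hne.1, hne.2.1, hne.2.2.1, hne.2.2.2⟩
    · intro u hu v hv w hw he hn
      exact (hF u hu v hv w hw he).1 hn
    · intro u hu v hv w hw he h1 h2
      exact (hF u hu v hv w hw he).2 ⟨h1, h2⟩

/-- **Iterated substitution.** A `K_4^3`-free 3-graph on `n` vertices which is built by iterated
substitution, each step with at most five classes (arbitrary pattern) or with any number of classes
(Fon-der-Flaass type), has at most `5 n ^ 3 / 54` edges. -/
theorem result (V : Type) [Fintype V] [DecidableEq V] (H : Finset (Finset V))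
    (hH : ∀ e ∈ H, e.card = 3) (hK : K43Free H) (hB : Built H univ) :
    54 * H.card ≤ 5 * Fintype.card V ^ 3 := by
  have h := bound hH hK hB
  have e : V641.TS.inside H univ = H := by
    unfold V641.TS.inside
    rw [Finset.filter_true_of_mem]
    intro e _
    exact subset_univ e
  rw [e, card_univ] at h
  exact h

end Pool.Agent.Results.MP_f1799f_co.IteratedSubstitution
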