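import Pool.Agent.H86.MT.L6
import Pool.Agent.H86.MT.T1
import Pool.Agent.H86.MT.Sample

/-!
# The Turán density of `K_4` in the classes of monotone 3-graphs on an ordered vertex set

`IsGraph n E`: `E` is a set of triples `a < b < c < n`, i.e. a 3-graph on the vertices `0, ..., n-1`.
`K4Free E`: no four vertices span four edges.
`Mono n x y z E` (`x y z : SignType`): an edge remains an edge when its smallest vertex is moved in
the direction `x`, its middle vertex in the direction `y`, its largest vertex in the direction `z`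
(within `0, ..., n-1` and keeping the order of the three vertices; the sign `0` is no condition).
(The definitions are in `Pool.Agent.H86.MT.Defs`.)

For each of the 26 triples of signs other than `(0, 0, 0)` we determine the limit of the largest
density of a `K_4`-free 3-graph in the class. The class of `(0, 0, 0)` is that of all 3-graphs.
Moreover, the value is an upper bound for the density of all `K_4`-free 3-graphs which are almost in
the class: `viol n x y z E` is the set of the 4-sets of vertices on which `E` is not monotone, and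
the bound holds, up to `ε`, if there are at most `δ * n.choose 4` of them. So a `K_4`-free 3-graph
whose density is larger by `ε` than the value has at least a share `δ` of such 4-sets, however its
vertices are ordered.
-/

set_option autoImplicit false
open Finset Filter Topology

namespace Pool.Agent.Results.MP_f1799f_co.MonotoneThreeGraphs

open Pool.Agent.H86.MT

/-- the largest number of edges of a `K_4`-free 3-graph on `0, ..., n - 1` in the class of the signs
`x, y, z` -/
noncomputable def exM (n : ℕ) (x y z : SignType) : ℕ :=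
  sSup {k | ∃ E : Finset (ℕ × ℕ × ℕ), IsGraph n E ∧ K4Free E ∧ Mono n x y z E ∧ E.card = k}

/-- the table of the values -/
noncomputable def val (x y z : SignType) : ℝ :=
  if (x, y, z) ∈ ({(-1, 0, 0), (0, 0, 1)} : Finset (SignType × SignType × SignType)) then 5 / 9
  else if (x, y, z) ∈ ({(1, 0, 0), (0, 0, -1), (0, 1, 0), (0, -1, 0), (-1, 1, 0), (0, -1, 1),
    (-1, 0, 1)} : Finset (SignType × SignType × SignType)) then 1 / 2
  else if (x, y, z) ∈ ({(-1, -1, 0), (0, 1, 1), (-1, -1, 1), (-1, 1, 1)} :
    Finset (SignType × SignType × SignType)) then 4 / 9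
  else if (x, y, z) ∈ ({(-1, 0, -1), (0, 1, -1), (-1, 1, -1), (1, 0, 1), (1, -1, 0), (1, -1, 1)} :
    Finset (SignType × SignType × SignType)) then 2 * Real.sqrt 3 - 3
  else 0

theorem w0 (s : SignType) : Weaker 0 s := Or.inl rfl

theorem ws (s : SignType) : Weaker s s := Or.inr rfl

theorem u1r : Upper (-1) 0 0 (5 / 9) := u1.rev
theorem u2r : Upper 1 0 0 (1 / 2) := u2.rev
theorem u3r : Upper 0 (-1) 0 (1 / 2) := u3.rev
theorem u5r : Upper (-1) (-1) 0 (4 / 9) := u5.rev
theorem u6ar : Upper 1 0 1 (2 * Real.sqrt 3 - 3) := u6a.rev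
theorem u6br : Upper 1 (-1) 0 (2 * Real.sqrt 3 - 3) := u6b.rev
theorem u7ar : Upper 1 1 0 0 := u7a.rev
theorem l1r : Lower (-1) 0 0 (5 / 9) := l1.rev
theorem l2r : Lower 1 0 0 (1 / 2) := l2.rev
theorem l3r : Lower 0 (-1) 1 (1 / 2) := l3.rev
theorem l5r : Lower (-1) (-1) 1 (4 / 9) := l5.rev
theorem l6r : Lower 1 (-1) 1 (2 * Real.sqrt 3 - 3) := l6.rev

theorem both (x y z : SignType) (h : (x, y, z) ≠ (0, 0, 0)) :
    Upper x y z (val x y z) ∧ Lower x y z (val x y z) := by
  have hv : val x y z = val x y z := rfl
  rcases x with _ | _ | _ <;> rcases y with _ | _ | _ <;> rcases z with _ | _ | _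
  · exact absurd rfl h
  -- zero zero neg
  · have e : val SignType.zero SignType.zero SignType.neg = 1 / 2 := by
      unfold val; rw [if_neg (by decide), if_pos (by decide)]
    rw [e]; exact ⟨u2, l2⟩
  · have e : val SignType.zero SignType.zero SignType.pos = 5 / 9 := by
      unfold val; rw [if_pos (by decide)]
    rw [e]; exact ⟨u1, l1⟩
  · have e : val SignType.zero SignType.neg SignType.zero = 1 / 2 := by
      unfold val; rw [if_neg (by decide), if_pos (by decide)]
    rw [e]; exact ⟨u3r, l3r.mono (ws _) (ws _) (w0 _)⟩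
  · have e : val SignType.zero SignType.neg SignType.neg = 0 := by
      unfold val; rw [if_neg (by decide), if_neg (by decide), if_neg (by decide),
        if_neg (by decide)]
    rw [e]; exact ⟨u7a, l0 _ _ _⟩
  · have e : val SignType.zero SignType.neg SignType.pos = 1 / 2 := by
      unfold val; rw [if_neg (by decide), if_pos (by decide)]
    rw [e]; exact ⟨u3r.mono (ws _) (ws _) (w0 _), l3r⟩
  · have e : val SignType.zero SignType.pos SignType.zero = 1 / 2 := by
      unfold val; rw [if_neg (by decide), if_pos (by decide)]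
    rw [e]; exact ⟨u3, l3.mono (w0 _) (ws _) (ws _)⟩
  · have e : val SignType.zero SignType.pos SignType.neg = 2 * Real.sqrt 3 - 3 := by
      unfold val; rw [if_neg (by decide), if_neg (by decide), if_neg (by decide),
        if_pos (by decide)]
    rw [e]; exact ⟨u6b, l6.mono (w0 _) (ws _) (ws _)⟩
  · have e : val SignType.zero SignType.pos SignType.pos = 4 / 9 := by
      unfold val; rw [if_neg (by decide), if_neg (by decide), if_pos (by decide)]
    rw [e]; exact ⟨u5, l5.mono (w0 _) (ws _) (ws _)⟩
  -- neg
  · have e : val SignType.neg SignType.zero SignType.zero = 5 / 9 := by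
      unfold val; rw [if_pos (by decide)]
    rw [e]; exact ⟨u1r, l1r⟩
  · have e : val SignType.neg SignType.zero SignType.neg = 2 * Real.sqrt 3 - 3 := by
      unfold val; rw [if_neg (by decide), if_neg (by decide), if_neg (by decide),
        if_pos (by decide)]
    rw [e]; exact ⟨u6a, l6.mono (ws _) (w0 _) (ws _)⟩
  · have e : val SignType.neg SignType.zero SignType.pos = 1 / 2 := by
      unfold val; rw [if_neg (by decide), if_pos (by decide)]
    rw [e]; exact ⟨u4, l4⟩
  · have e : val SignType.neg SignType.neg SignType.zero = 4 / 9 := by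
      unfold val; rw [if_neg (by decide), if_neg (by decide), if_pos (by decide)]
    rw [e]; exact ⟨u5r, l5r.mono (ws _) (ws _) (w0 _)⟩
  · have e : val SignType.neg SignType.neg SignType.neg = 0 := by
      unfold val; rw [if_neg (by decide), if_neg (by decide), if_neg (by decide),
        if_neg (by decide)]
    rw [e]; exact ⟨u7a.mono (w0 _) (ws _) (ws _), l0 _ _ _⟩
  · have e : val SignType.neg SignType.neg SignType.pos = 4 / 9 := by
      unfold val; rw [if_neg (by decide), if_neg (by decide), if_pos (by decide)]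
    rw [e]; exact ⟨u5r.mono (ws _) (ws _) (w0 _), l5r⟩
  · have e : val SignType.neg SignType.pos SignType.zero = 1 / 2 := by
      unfold val; rw [if_neg (by decide), if_pos (by decide)]
    rw [e]; exact ⟨u3.mono (w0 _) (ws _) (ws _), l3⟩
  · have e : val SignType.neg SignType.pos SignType.neg = 2 * Real.sqrt 3 - 3 := by
      unfold val; rw [if_neg (by decide), if_neg (by decide), if_neg (by decide),
        if_pos (by decide)]
    rw [e]; exact ⟨u6a.mono (ws _) (w0 _) (ws _), l6⟩
  · have e : val SignType.neg SignType.pos SignType.pos = 4 / 9 := by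
      unfold val; rw [if_neg (by decide), if_neg (by decide), if_pos (by decide)]
    rw [e]; exact ⟨u5.mono (w0 _) (ws _) (ws _), l5⟩
  -- pos
  · have e : val SignType.pos SignType.zero SignType.zero = 1 / 2 := by
      unfold val; rw [if_neg (by decide), if_pos (by decide)]
    rw [e]; exact ⟨u2r, l2r⟩
  · have e : val SignType.pos SignType.zero SignType.neg = 0 := by
      unfold val; rw [if_neg (by decide), if_neg (by decide), if_neg (by decide),
        if_neg (by decide)]
    rw [e]; exact ⟨u7b, l0 _ _ _⟩
  · have e : val SignType.pos SignType.zero SignType.pos = 2 * Real.sqrt 3 - 3 := by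
      unfold val; rw [if_neg (by decide), if_neg (by decide), if_neg (by decide),
        if_pos (by decide)]
    rw [e]; exact ⟨u6ar, l6r.mono (ws _) (w0 _) (ws _)⟩
  · have e : val SignType.pos SignType.neg SignType.zero = 2 * Real.sqrt 3 - 3 := by
      unfold val; rw [if_neg (by decide), if_neg (by decide), if_neg (by decide),
        if_pos (by decide)]
    rw [e]; exact ⟨u6br, l6r.mono (ws _) (ws _) (w0 _)⟩
  · have e : val SignType.pos SignType.neg SignType.neg = 0 := by
      unfold val; rw [if_neg (by decide), if_neg (by decide), if_neg (by decide),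
        if_neg (by decide)]
    rw [e]; exact ⟨u7a.mono (w0 _) (ws _) (ws _), l0 _ _ _⟩
  · have e : val SignType.pos SignType.neg SignType.pos = 2 * Real.sqrt 3 - 3 := by
      unfold val; rw [if_neg (by decide), if_neg (by decide), if_neg (by decide),
        if_pos (by decide)]
    rw [e]; exact ⟨u6ar.mono (ws _) (w0 _) (ws _), l6r⟩
  · have e : val SignType.pos SignType.pos SignType.zero = 0 := by
      unfold val; rw [if_neg (by decide), if_neg (by decide), if_neg (by decide),
        if_neg (by decide)]
    rw [e]; exact ⟨u7ar, l0 _ _ _⟩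
  · have e : val SignType.pos SignType.pos SignType.neg = 0 := by
      unfold val; rw [if_neg (by decide), if_neg (by decide), if_neg (by decide),
        if_neg (by decide)]
    rw [e]; exact ⟨u7b.mono (ws _) (w0 _) (ws _), l0 _ _ _⟩
  · have e : val SignType.pos SignType.pos SignType.pos = 0 := by
      unfold val; rw [if_neg (by decide), if_neg (by decide), if_neg (by decide),
        if_neg (by decide)]
    rw [e]; exact ⟨u7ar.mono (ws _) (ws _) (w0 _), l0 _ _ _⟩

theorem exM_spec (n : ℕ) (x y z : SignType) :
    (∃ E : Finset (ℕ × ℕ × ℕ), IsGraph n E ∧ K4Free E ∧ Mono n x y z E ∧ E.card = exM n x y z) ∧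
    ∀ E : Finset (ℕ × ℕ × ℕ), IsGraph n E → K4Free E → Mono n x y z E → E.card ≤ exM n x y z := by
  have hb : BddAbove {k | ∃ E : Finset (ℕ × ℕ × ℕ), IsGraph n E ∧ K4Free E ∧ Mono n x y z E ∧
      E.card = k} := by
    refine ⟨(range n ×ˢ (range n ×ˢ range n)).card, ?_⟩
    rintro k ⟨E, h1, -, -, rfl⟩
    apply card_le_card
    rintro ⟨a, b, c⟩ h
    have := h1 _ _ _ h
    rw [mem_product, mem_product, mem_range, mem_range, mem_range]
    simp only
    omega
  have hne : {k | ∃ E : Finset (ℕ × ℕ × ℕ), IsGraph n E ∧ K4Free E ∧ Mono n x y z E ∧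
      E.card = k}.Nonempty := by
    refine ⟨0, ∅, ?_, ?_, ?_, by simp⟩
    · intro a b c h
      simp at h
    · intro a b c d h1 h2 h3 h4
      simp at h1
    · refine ⟨fun a b c a' h1 h2 h3 => ?_, fun a b c b' h1 h2 h3 h4 => ?_,
        fun a b c c' h1 h2 h3 h4 => ?_⟩ <;> simp at h1
  refine ⟨?_, ?_⟩
  · exact Nat.sSup_mem hne hb
  · intro E h1 h2 h3
    exact le_csSup hb ⟨E, h1, h2, h3, rfl⟩

theorem limit (x y z : SignType) (h : (x, y, z) ≠ (0, 0, 0)) :
    Tendsto (fun n : ℕ => (exM n x y z : ℝ) / (n.choose 3 : ℝ)) atTop (𝓝 (val x y z)) := by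
  obtain ⟨hU, hL⟩ := both x y z h
  rw [Metric.tendsto_atTop]
  intro ε hε
  obtain ⟨n₁, h1⟩ := hU (ε / 2) (by positivity)
  obtain ⟨n₂, h2⟩ := hL (ε / 2) (by positivity)
  refine ⟨max (max n₁ n₂) 3, fun n hn => ?_⟩
  have hn1 : n₁ ≤ n := le_trans (le_trans (le_max_left _ _) (le_max_left _ _)) hn
  have hn2 : n₂ ≤ n := le_trans (le_trans (le_max_right _ _) (le_max_left _ _)) hn
  have hn3 : 3 ≤ n := le_trans (le_max_right _ _) hn
  have hc : 0 < (n.choose 3 : ℝ) := by exact_mod_cast Nat.choose_pos hn3
  obtain ⟨⟨E, a1, a2, a3, a4⟩, hle⟩ := exM_spec n x y z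
  have b1 := h1 n hn1 E a1 a2 a3
  rw [a4] at b1
  obtain ⟨F, c1, c2, c3, c4⟩ := h2 n hn2
  have b2 : (F.card : ℝ) ≤ (exM n x y z : ℝ) := by exact_mod_cast hle F c1 c2 c3
  have b3 := le_trans c4 b2
  rw [Real.dist_eq, abs_lt]
  constructor
  · have : val x y z - ε / 2 ≤ (exM n x y z : ℝ) / (n.choose 3 : ℝ) := by
      rw [le_div_iff₀ hc]
      exact b3
    linarith
  · have : (exM n x y z : ℝ) / (n.choose 3 : ℝ) ≤ val x y z + ε / 2 := by
      rw [div_le_iff₀ hc]
      exact b1
    linarith

theorem val_nonneg (x y z : SignType) : 0 ≤ val x y z := by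
  unfold val
  have h3 : (2 : ℝ) * Real.sqrt 3 - 3 ≥ 0 := by
    have : (3 : ℝ) / 2 ≤ Real.sqrt 3 := by
      apply Real.le_sqrt_of_sq_le
      norm_num
    linarith
  split_ifs
  · norm_num
  · norm_num
  · norm_num
  · exact h3
  · exact le_rfl

/-- For each of the 26 triples of signs other than `(0, 0, 0)`: the largest density of a `K_4`-free
3-graph on `n` ordered vertices that is monotone with respect to these signs tends to the value in
the table, and no `K_4`-free 3-graph with few violations of monotonicity has a larger density. -/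
theorem result (x y z : SignType) (h : (x, y, z) ≠ (0, 0, 0)) :
    Tendsto (fun n : ℕ => (exM n x y z : ℝ) / (n.choose 3 : ℝ)) atTop (𝓝 (val x y z)) ∧
    ∀ ε : ℝ, 0 < ε → ∃ δ : ℝ, 0 < δ ∧ ∃ n₀ : ℕ, ∀ n : ℕ, n₀ ≤ n → ∀ E : Finset (ℕ × ℕ × ℕ),
      IsGraph n E → K4Free E → ((viol n x y z E).card : ℝ) ≤ δ * n.choose 4 →
      (E.card : ℝ) ≤ (val x y z + ε) * n.choose 3 :=
  ⟨limit x y z h, robust (val_nonneg x y z) (both x y z h).1⟩

end Pool.Agent.Results.MP_f1799f_co.MonotoneThreeGraphs
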