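import Pool.Agent.Helper72_TT.Cyc
import Pool.Agent.W38.TC.Lower

/-!
# Turán's conjecture for 3-graphs encoded by a tree with at most three children per node

Let `T` be a rooted tree whose leaves are the vertices of the 3-graph `H` and in which every inner
node has two or three children. We suppose that the leaves below every node are a module of `H` (all
of them have the same link outside the module). So it depends only on the tree whether `x, y, z` is
an edge: on the three children of the node at which `x, y, z` separate, or, if `x` and `y` separate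
at a node `u` below the node `v` at which they separate from `z`, on the two children of `u` and the
child of `v` above them. These are the nested constructions with at most three parts in each step;
Turán's construction is one of them (three modules without edges). The only further condition is
that a node at which the triples that separate there are edges has no edges which consist of two
vertices that separate there and a vertex that is not below the node.

It is proved that such a 3-graph has at most `(5/54) n^3` edges if it is `K_4^3`-free. So Turán's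
conjecture holds in this class, and it is sharp there.

Proof by induction on the tree. For the set `A` of the leaves below a node, `N` is the set of the
outer vertices which may form edges with pairs of `A`; the number of edges with at least two vertices
in `A` and the others in `A ∪ N` is bounded in terms of `|A|`, `|N|` and the largest size of an
independent subset of `N` in the common link of the vertices of `A`.
-/

set_option autoImplicit false
open Finset

namespace Pool.Agent.Results.MP_f1799f_co.TernaryTrees

/-- The 3-graph `H` has no four vertices spanning all four triples. -/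
def K43Free {n : ℕ} (H : Finset (Finset (Fin n))) : Prop :=
  ∀ S : Finset (Fin n), S.card = 4 → ∃ s ⊆ S, s.card = 3 ∧ s ∉ H

/-- The finite rooted trees with leaves labelled by the elements of `V`, in which every inner node
has two or three children. -/
inductive Tree (V : Type) where
  | leaf (v : V) : Tree V
  | two (s t : Tree V) : Tree V
  | three (s t u : Tree V) : Tree V

/-- The set of the labels of the leaves. -/
def Tree.leaves {V : Type} [DecidableEq V] : Tree V → Finset V
  | .leaf v => {v}
  | .two s t => s.leaves ∪ t.leaves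
  | .three s t u => s.leaves ∪ t.leaves ∪ u.leaves

/-- `C` is a module of `H`: all vertices of `C` have the same link outside `C`. -/
def IsModule {V : Type} [DecidableEq V] (H : Finset (Finset V)) (C : Finset V) : Prop :=
  ∀ x ∈ C, ∀ x' ∈ C, ∀ y z : V, y ∉ C → z ∉ C → y ≠ z → ({x, y, z} ∈ H ↔ {x', y, z} ∈ H)

/-- `H` is encoded by the tree: different leaves have different labels, the leaves below a child
of a node form a module, and at a node with three children the following holds: if three vertices
`x`, `y`, `w` below different children form an edge, then no pair of them forms an edge with a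
vertex `z` which is not below the node. -/
def Encoded {V : Type} [DecidableEq V] (H : Finset (Finset V)) : Tree V → Prop
  | .leaf _ => True
  | .two s t => Disjoint s.leaves t.leaves ∧ IsModule H s.leaves ∧ IsModule H t.leaves ∧
      Encoded H s ∧ Encoded H t
  | .three s t u => Disjoint s.leaves t.leaves ∧ Disjoint t.leaves u.leaves ∧
      Disjoint s.leaves u.leaves ∧ IsModule H s.leaves ∧ IsModule H t.leaves ∧
      IsModule H u.leaves ∧
      (∀ x ∈ s.leaves, ∀ y ∈ t.leaves, ∀ w ∈ u.leaves, {x, y, w} ∈ H →
        ∀ z, z ∉ s.leaves ∪ t.leaves ∪ u.leaves →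
          {x, y, z} ∉ H ∧ {y, w, z} ∉ H ∧ {x, w, z} ∉ H) ∧
      Encoded H s ∧ Encoded H t ∧ Encoded H u

open Pool.Agent.Helper72_TT

theorem isMod_of {V : Type} [DecidableEq V] {H : Finset (Finset V)} {C : Finset V}
    (h : IsModule H C) : IsMod H C :=
  fun x hx x' hx' y hy z hz hyz => (h x hx x' hx' y z hy hz hyz).1

theorem leaves_nonempty {V : Type} [DecidableEq V] (T : Tree V) : T.leaves.Nonempty := by
  induction T with
  | leaf v => exact singleton_nonempty v
  | two s t hs ht => exact hs.mono subset_union_left
  | three s t u hs ht hu => exact hs.mono (subset_union_left.trans subset_union_left)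

theorem claim_leaf {V : Type} [DecidableEq V] {H : Finset (Finset V)} (v : V) :
    Claim H {v} := by
  intro N D hN hD hDN hI
  have : Helper72_TT.val H {v} N = ∅ := by
    unfold Helper72_TT.val
    rw [filter_eq_empty_iff]
    rintro e he ⟨h1, h2⟩
    have := card_le_card (inter_subset_right : e ∩ {v} ⊆ {v})
    rw [card_singleton] at this
    omega
  rw [this, card_empty]
  have h1 := K_nonneg (D := D) (x := (({v} : Finset V).card : ℝ)) hD (Nat.cast_nonneg _)
  have h2 : (0 : ℝ) ≤ N.card * (({v} : Finset V).card : ℝ) ^ 2 / 4 := by positivity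
  push_cast
  linarith

theorem claim_tree {V : Type} [DecidableEq V] {H : Finset (Finset V)}
    (h3 : ∀ e ∈ H, e.card = 3) (hF : Free H) (T : Tree V) (hD : Encoded H T)
    (hM : IsMod H T.leaves) : Claim H T.leaves := by
  induction T with
  | leaf v => exact claim_leaf v
  | two s t hs ht =>
    obtain ⟨h1, h2, h4, h5, h6⟩ := hD
    exact claim_two h3 hF h1 (leaves_nonempty s) (leaves_nonempty t) (isMod_of h2) (isMod_of h4)
      hM (hs h5 (isMod_of h2)) (ht h6 (isMod_of h4))
  | three s t u hs ht hu =>
    obtain ⟨d1, d2, d4, m1, m2, m4, hp, e1, e2, e4⟩ := hD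
    exact claim_three h3 hF d1 d2 d4 (leaves_nonempty s) (leaves_nonempty t) (leaves_nonempty u)
      (isMod_of m1) (isMod_of m2) (isMod_of m4) hM hp (hs e1 (isMod_of m1)) (ht e2 (isMod_of m2))
      (hu e4 (isMod_of m4))

theorem free_of {n : ℕ} {H : Finset (Finset (Fin n))} (hK : K43Free H) : Free H := by
  intro x y z w hxy hxz hxw hyz hyw hzw h1 h2 h4 h5
  obtain ⟨s, hs, hc, hn⟩ := hK {x, y, z, w} (by
    rw [card_insert_of_notMem, card_insert_of_notMem, card_insert_of_notMem, card_singleton] <;>
      simp [hxy, hxz, hxw, hyz, hyw, hzw])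
  -- the missing vertex
  have hc4 : ({x, y, z, w} : Finset (Fin n)).card = 4 := by
    rw [card_insert_of_notMem, card_insert_of_notMem, card_insert_of_notMem, card_singleton] <;>
      simp [hxy, hxz, hxw, hyz, hyw, hzw]
  have hd : (({x, y, z, w} : Finset (Fin n)) \ s).card = 1 := by
    have := card_sdiff_add_card_eq_card hs
    omega
  obtain ⟨a, ha⟩ := card_eq_one.1 hd
  have hmem : ∀ b, b ∈ s ↔ (b ∈ ({x, y, z, w} : Finset (Fin n)) ∧ b ≠ a) := by
    intro b
    constructor
    · intro hb
      refine ⟨hs hb, fun hba => ?_⟩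
      have : a ∈ ({x, y, z, w} : Finset (Fin n)) \ s := by rw [ha]; simp
      exact (mem_sdiff.1 this).2 (hba ▸ hb)
    · rintro ⟨hb, hba⟩
      by_contra hbs
      have : b ∈ ({x, y, z, w} : Finset (Fin n)) \ s := mem_sdiff.2 ⟨hb, hbs⟩
      rw [ha, mem_singleton] at this
      exact hba this
  have haS : a ∈ ({x, y, z, w} : Finset (Fin n)) := by
    have : a ∈ ({x, y, z, w} : Finset (Fin n)) \ s := by rw [ha]; simp
    exact (mem_sdiff.1 this).1
  simp only [mem_insert, mem_singleton] at haS
  have hsx : ∀ t : Finset (Fin n), (∀ b, b ∈ t ↔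
      (b ∈ ({x, y, z, w} : Finset (Fin n)) ∧ b ≠ a)) → s = t := by
    intro t ht
    ext b
    rw [hmem b, ht b]
  rcases haS with rfl | rfl | rfl | rfl
  · refine hn (hsx {y, z, w} ?_ ▸ h5)
    intro b
    simp only [mem_insert, mem_singleton]
    constructor
    · rintro (rfl | rfl | rfl) <;> simp [Ne.symm hxy, Ne.symm hxz, Ne.symm hxw]
    · tauto
  · refine hn (hsx {x, z, w} ?_ ▸ h4)
    intro b
    simp only [mem_insert, mem_singleton]
    constructor
    · rintro (rfl | rfl | rfl) <;> simp [hxy, Ne.symm hyz, Ne.symm hyw]
    · tauto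
  · refine hn (hsx {x, y, w} ?_ ▸ h2)
    intro b
    simp only [mem_insert, mem_singleton]
    constructor
    · rintro (rfl | rfl | rfl) <;> simp [hxz, hyz, Ne.symm hzw]
    · tauto
  · refine hn (hsx {x, y, z} ?_ ▸ h1)
    intro b
    simp only [mem_insert, mem_singleton]
    constructor
    · rintro (rfl | rfl | rfl) <;> simp [hxw, hyw, hzw]
    · tauto

/-- the upper bound -/
theorem upper {n : ℕ} {H : Finset (Finset (Fin n))} (h3 : ∀ e ∈ H, e.card = 3)
    (hK : K43Free H) (T : Tree (Fin n)) (hT : T.leaves = univ) (hD : Encoded H T) :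
    (H.card : ℝ) ≤ 5 / 54 * (n : ℝ) ^ 3 := by
  have hM : IsMod H T.leaves := by
    rw [hT]
    intro x _ x' _ y hy
    exact absurd (mem_univ y) hy
  have hc := claim_tree h3 (free_of hK) T hD hM ∅ 0 (disjoint_empty_right _) le_rfl (by simp)
    (by
      intro I hI _
      rw [subset_empty.1 hI]
      simp)
  have hv : Helper72_TT.val H T.leaves ∅ = H := by
    unfold Helper72_TT.val
    rw [filter_eq_self]
    intro e he
    rw [hT, inter_univ]
    refine ⟨fun a _ => by simp, ?_⟩
    have := h3 e he
    omega
  rw [hv, hT, card_univ, Fintype.card_fin, K_zero_left (Nat.cast_nonneg n)] at hc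
  simpa using hc

/-- every nonempty subset of a part of Turán's construction is the set of leaves of a tree -/
theorem exists_tree {n : ℕ} (i : Fin 3) (S : Finset (Fin n)) (hS : S.Nonempty)
    (hSi : ∀ x ∈ S, Pool.Agent.W38.TC.Lower.p x = i) :
    ∃ T : Tree (Fin n), T.leaves = S ∧ Encoded Pool.Agent.W38.TC.Lower.H T := by
  have hmod : ∀ C : Finset (Fin n), (∀ x ∈ C, Pool.Agent.W38.TC.Lower.p x = i) →
      IsModule (Pool.Agent.W38.TC.Lower.H (n := n)) C := by
    intro C hC x hx x' hx' y z hy hz hyz
    have a1 : x ≠ y := fun h => hy (h ▸ hx)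
    have a2 : x ≠ z := fun h => hz (h ▸ hx)
    have a3 : x' ≠ y := fun h => hy (h ▸ hx')
    have a4 : x' ≠ z := fun h => hz (h ▸ hx')
    rw [Pool.Agent.W38.TC.Lower.mem_H a1 a2 hyz, Pool.Agent.W38.TC.Lower.mem_H a3 a4 hyz,
      hC x hx, hC x' hx']
  induction S using Finset.induction_on with
  | empty => exact absurd hS (by simp)
  | insert a S ha ih =>
    by_cases hS' : S.Nonempty
    · obtain ⟨T, hT, hD⟩ := ih hS' (fun x hx => hSi x (mem_insert_of_mem hx))
      refine ⟨.two (.leaf a) T, ?_, ?_⟩
      · show {a} ∪ T.leaves = insert a S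
        rw [hT]; rfl
      · refine ⟨?_, ?_, ?_, trivial, hD⟩
        · show Disjoint {a} T.leaves
          rw [hT]; exact disjoint_singleton_left.2 ha
        · exact hmod {a} (fun x hx => hSi x (by rw [mem_singleton.1 hx]; exact mem_insert_self _ _))
        · rw [hT]; exact hmod S (fun x hx => hSi x (mem_insert_of_mem hx))
    · rw [not_nonempty_iff_eq_empty] at hS'
      refine ⟨.leaf a, ?_, trivial⟩
      rw [hS']; rfl

open Pool.Agent.W38.TC.Lower in
/-- Turán's construction is encoded by a tree -/
theorem turan_tree {n : ℕ} (hn : 3 ≤ n) :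
    ∃ T : Tree (Fin n), T.leaves = univ ∧ Encoded (H (n := n)) T := by
  classical
  set P : Fin 3 → Finset (Fin n) := fun i => univ.filter fun x => p x = i with hP
  have hne : ∀ i, (P i).Nonempty := by
    intro i
    refine ⟨⟨i.val, by omega⟩, ?_⟩
    rw [hP]
    simp only [mem_filter, mem_univ, true_and]
    unfold p
    ext
    simp only
    omega
  have hPi : ∀ i, ∀ x ∈ P i, p x = i := by
    intro i x hx
    rw [hP] at hx
    exact (mem_filter.1 hx).2
  have hdis : ∀ i j, i ≠ j → Disjoint (P i) (P j) := by
    intro i j hij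
    rw [disjoint_left]
    intro x hx hy
    exact hij ((hPi i x hx).symm.trans (hPi j x hy))
  have hmod : ∀ i, IsModule (H (n := n)) (P i) := by
    intro i x hx x' hx' y z hy hz hyz
    have a1 : x ≠ y := fun h => hy (h ▸ hx)
    have a2 : x ≠ z := fun h => hz (h ▸ hx)
    have a3 : x' ≠ y := fun h => hy (h ▸ hx')
    have a4 : x' ≠ z := fun h => hz (h ▸ hx')
    rw [mem_H a1 a2 hyz, mem_H a3 a4 hyz, hPi i x hx, hPi i x' hx']
  obtain ⟨T0, h0, d0⟩ := exists_tree 0 (P 0) (hne 0) (hPi 0)
  obtain ⟨T1, h1, d1⟩ := exists_tree 1 (P 1) (hne 1) (hPi 1)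
  obtain ⟨T2, h2, d2⟩ := exists_tree 2 (P 2) (hne 2) (hPi 2)
  have hall : T0.leaves ∪ T1.leaves ∪ T2.leaves = univ := by
    rw [h0, h1, h2]
    ext x
    simp only [mem_union, mem_univ, iff_true, hP, mem_filter, true_and]
    have : ∀ j : Fin 3, (j = 0 ∨ j = 1) ∨ j = 2 := by decide
    exact this (p x)
  refine ⟨.three T0 T1 T2, hall, ?_, ?_, ?_, ?_, ?_, ?_, ?_, d0, d1, d2⟩
  · rw [h0, h1]; exact hdis 0 1 (by decide)
  · rw [h1, h2]; exact hdis 1 2 (by decide)
  · rw [h0, h2]; exact hdis 0 2 (by decide)
  · rw [h0]; exact hmod 0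
  · rw [h1]; exact hmod 1
  · rw [h2]; exact hmod 2
  · intro x _ y _ w _ _ z hz
    rw [hall] at hz
    exact absurd (mem_univ z) hz

/-- **Turán's conjecture for 3-graphs encoded by a tree with at most three children per node.**
A `K_4^3`-free 3-graph on `n` vertices which is encoded by a rooted tree in which every inner
node has two or three children has at most `(5/54) n^3` edges, and for all `n ≥ 3` there is such a
3-graph with at least `(5/54) n^3 - 2 n^2` edges. -/
theorem result :
    (∀ (n : ℕ) (H : Finset (Finset (Fin n))) (T : Tree (Fin n)), (∀ e ∈ H, e.card = 3) →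
      K43Free H → T.leaves = univ → Encoded H T → (H.card : ℝ) ≤ 5 / 54 * (n : ℝ) ^ 3) ∧
    (∀ n : ℕ, 3 ≤ n → ∃ (H : Finset (Finset (Fin n))) (T : Tree (Fin n)),
      (∀ e ∈ H, e.card = 3) ∧ K43Free H ∧ T.leaves = univ ∧ Encoded H T ∧
      5 / 54 * (n : ℝ) ^ 3 - 2 * (n : ℝ) ^ 2 ≤ (H.card : ℝ)) := by
  refine ⟨fun n H T h3 hK hT hD => upper h3 hK T hT hD, fun n hn => ?_⟩
  obtain ⟨T, hT, hD⟩ := turan_tree hn
  exact ⟨Pool.Agent.W38.TC.Lower.H, T, fun _ he => Pool.Agent.W38.TC.Lower.H_card he,
    fun S hS => Pool.Agent.W38.TC.Lower.H_free S hS, hT, hD, Pool.Agent.W38.TC.Lower.H_large⟩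

end Pool.Agent.Results.MP_f1799f_co.TernaryTrees
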